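import Pool.Agent.H65.EN.Targets
import Pool.Agent.H31.LV.Basic

/-!
Row MUW of enx_modules: the moments of the complete sums are multiplicative (helper13).
-/

set_option autoImplicit false

open Finset

namespace Pool.Agent.H13.ENX

open Pool.Agent.H24.CL Pool.Agent.H24.LV Pool.Agent.H31.LV Pool.Agent.H65.EN

/-- the polynomial -/
def P {d : ℕ} (a : Fin d → ℤ) (z : ℤ) : ℤ := ∑ i : Fin d, a i * z ^ (i.val + 1)

/-- the character -/
noncomputable def E (q : ℕ) (N : ℤ) : ℂ := ee ((N : ℝ) / (q : ℝ))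

theorem Sq_eq {d : ℕ} (q : ℕ) (a : Fin d → ℤ) :
    Sq q a = (1 / (q : ℂ)) * ∑ z ∈ range q, E q (P a (z : ℤ)) := by
  unfold Sq
  congr 1
  refine sum_congr rfl fun z _ => ?_
  rw [e_coe]
  unfold E P
  push_cast
  rfl

theorem E_add (q : ℕ) (M N : ℤ) : E q (M + N) = E q M * E q N := by
  unfold E
  rw [← ee_add]
  congr 1
  push_cast
  ring

theorem E_congr {q : ℕ} (hq : 1 ≤ q) {M N : ℤ} (h : M ≡ N [ZMOD q]) : E q M = E q N := by
  obtain ⟨t, ht⟩ := h.symm.dvd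
  have hq0 : (q : ℝ) ≠ 0 := by
    have : (0 : ℝ) < q := by exact_mod_cast hq
    exact this.ne'
  unfold E
  refine ee_congr _ _ t ?_
  have h1 : ((M : ℝ) - N) = q * t := by exact_mod_cast ht
  rw [← sub_div, h1]
  field_simp

theorem E_mul {q₁ q₂ : ℕ} (h₂ : 1 ≤ q₂) (N : ℤ) :
    E (q₁ * q₂) ((q₂ : ℤ) * N) = E q₁ N := by
  have hq0 : (q₂ : ℝ) ≠ 0 := by
    have : (0 : ℝ) < q₂ := by exact_mod_cast h₂
    exact this.ne'
  unfold E
  congr 1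
  push_cast
  rw [mul_comm (q₁ : ℝ) (q₂ : ℝ), mul_div_mul_left _ _ hq0]

theorem P_congr {d : ℕ} {q : ℤ} {a b : Fin d → ℤ} (h : ∀ i, a i ≡ b i [ZMOD q]) {x y : ℤ}
    (hxy : x ≡ y [ZMOD q]) : P a x ≡ P b y [ZMOD q] := by
  unfold P
  induction (univ : Finset (Fin d)) using Finset.induction_on with
  | empty => simp
  | insert i s hi ih =>
    rw [sum_insert hi, sum_insert hi]
    exact ((h i).mul (hxy.pow _)).add ih

theorem pow_add_cop (u v : ℤ) (n : ℕ) : (u + v) ^ (n + 1) ≡ u ^ (n + 1) + v ^ (n + 1)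
    [ZMOD (u * v)] := by
  induction n with
  | zero => simp
  | succ n ih =>
    have h1 := ih.mul_right (u + v)
    have h2 : (u ^ (n + 1) + v ^ (n + 1)) * (u + v) ≡ u ^ (n + 2) + v ^ (n + 2)
        [ZMOD (u * v)] := by
      apply Int.ModEq.symm
      rw [Int.modEq_iff_dvd]
      exact ⟨u ^ n + v ^ n, by ring⟩
    exact (by rw [pow_succ] : (u + v) ^ (n + 1 + 1) = (u + v) ^ (n + 1) * (u + v)) ▸ h1.trans h2

theorem P_add {d : ℕ} (a : Fin d → ℤ) (u v : ℤ) : P a (u + v) ≡ P a u + P a v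
    [ZMOD (u * v)] := by
  unfold P
  induction (univ : Finset (Fin d)) using Finset.induction_on with
  | empty => simp
  | insert i s hi ih =>
    rw [sum_insert hi, sum_insert hi, sum_insert hi]
    have h1 := ((pow_add_cop u v i.val).mul_left (a i)).add ih
    refine h1.trans ?_
    change _ % _ = _ % _
    congr 1
    ring

theorem P_scale {d : ℕ} (a : Fin d → ℤ) (c x : ℤ) :
    P a (c * x) = c * P (fun i => a i * c ^ i.val) x := by
  unfold P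
  rw [mul_sum]
  refine sum_congr rfl fun i _ => ?_
  rw [mul_pow, pow_succ]
  ring

/-- the parametrisation of the residues modulo the product -/
theorem sum_crt {q₁ q₂ : ℕ} (h₁ : 1 ≤ q₁) (h₂ : 1 ≤ q₂) (hc : q₁.Coprime q₂) (f : ℕ → ℂ) :
    ∑ z ∈ range (q₁ * q₂), f z =
      ∑ x ∈ range q₁, ∑ y ∈ range q₂, f ((q₂ * x + q₁ * y) % (q₁ * q₂)) := by
  have hpos : 0 < q₁ * q₂ := Nat.mul_pos h₁ h₂
  rw [← sum_product' (range q₁) (range q₂) fun x y => f ((q₂ * x + q₁ * y) % (q₁ * q₂))]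
  have hinj : Set.InjOn (fun p : ℕ × ℕ => (q₂ * p.1 + q₁ * p.2) % (q₁ * q₂))
      (range q₁ ×ˢ range q₂ : Finset (ℕ × ℕ)) := by
    rintro ⟨x, y⟩ hp ⟨x', y'⟩ hp' h
    rw [mem_coe, mem_product, mem_range, mem_range] at hp hp'
    dsimp only at hp hp' h
    have h0 : q₂ * x + q₁ * y ≡ q₂ * x' + q₁ * y' [MOD (q₁ * q₂)] := h
    have hx : x = x' := by
      have h3 : q₂ * x ≡ q₂ * x' [MOD q₁] := by
        have h4 := h0.of_mul_right q₂
        have h5 : q₂ * x + q₁ * y ≡ q₂ * x [MOD q₁] := by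
          simp [Nat.ModEq]
        have h6 : q₂ * x' + q₁ * y' ≡ q₂ * x' [MOD q₁] := by
          simp [Nat.ModEq]
        exact h5.symm.trans (h4.trans h6)
      have h7 : x ≡ x' [MOD q₁] := Nat.ModEq.cancel_left_of_coprime hc h3
      exact Nat.ModEq.eq_of_lt_of_lt h7 hp.1 hp'.1
    have hy : y = y' := by
      have h3 : q₁ * y ≡ q₁ * y' [MOD q₂] := by
        have h4 := h0.of_mul_left q₁
        have h5 : q₂ * x + q₁ * y ≡ q₁ * y [MOD q₂] := by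
          simp [Nat.ModEq]
        have h6 : q₂ * x' + q₁ * y' ≡ q₁ * y' [MOD q₂] := by
          simp [Nat.ModEq]
        exact h5.symm.trans (h4.trans h6)
      have h7 : y ≡ y' [MOD q₂] := Nat.ModEq.cancel_left_of_coprime hc.symm h3
      exact Nat.ModEq.eq_of_lt_of_lt h7 hp.2 hp'.2
    rw [hx, hy]
  have himg : (range q₁ ×ˢ range q₂).image
      (fun p : ℕ × ℕ => (q₂ * p.1 + q₁ * p.2) % (q₁ * q₂)) = range (q₁ * q₂) := by
    apply eq_of_subset_of_card_le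
    · intro z hz
      obtain ⟨p, -, rfl⟩ := mem_image.mp hz
      exact mem_range.mpr (Nat.mod_lt _ hpos)
    · rw [card_image_of_injOn hinj, card_product, card_range, card_range, card_range]
  rw [← himg, sum_image hinj]

theorem Sq_mul {d : ℕ} {q₁ q₂ : ℕ} (h₁ : 1 ≤ q₁) (h₂ : 1 ≤ q₂) (hc : q₁.Coprime q₂)
    (a b b' : Fin d → ℤ) (hb : ∀ i, a i * (q₂ : ℤ) ^ i.val ≡ b i [ZMOD q₁])
    (hb' : ∀ i, a i * (q₁ : ℤ) ^ i.val ≡ b' i [ZMOD q₂]) :
    Sq (q₁ * q₂) a = Sq q₁ b * Sq q₂ b' := by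
  have hpos : 1 ≤ q₁ * q₂ := Nat.mul_pos h₁ h₂
  rw [Sq_eq, Sq_eq, Sq_eq, sum_crt h₁ h₂ hc fun z => E (q₁ * q₂) (P a (z : ℤ))]
  have e1 : ∀ x y : ℕ, E (q₁ * q₂) (P a (((q₂ * x + q₁ * y) % (q₁ * q₂) : ℕ) : ℤ)) =
      E q₁ (P b (x : ℤ)) * E q₂ (P b' (y : ℤ)) := by
    intro x y
    have h1 : P a (((q₂ * x + q₁ * y) % (q₁ * q₂) : ℕ) : ℤ) ≡
        P a ((q₂ : ℤ) * x + (q₁ : ℤ) * y) [ZMOD ((q₁ * q₂ : ℕ) : ℤ)] := by
      apply P_congr fun i => Int.ModEq.refl _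
      push_cast
      exact Int.mod_modEq _ _
    have h2 : P a ((q₂ : ℤ) * x + (q₁ : ℤ) * y) ≡
        P a ((q₂ : ℤ) * x) + P a ((q₁ : ℤ) * y) [ZMOD ((q₁ * q₂ : ℕ) : ℤ)] := by
      refine (P_add a _ _).of_dvd ?_
      push_cast
      exact ⟨(x : ℤ) * y, by ring⟩
    rw [E_congr hpos (h1.trans h2), E_add, P_scale, P_scale, E_mul h₂,
      mul_comm q₁ q₂, E_mul h₁, E_congr h₁ (P_congr hb (Int.ModEq.refl _)),
      E_congr h₂ (P_congr hb' (Int.ModEq.refl _))]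
  have e2 : ∑ x ∈ range q₁, ∑ y ∈ range q₂,
      E (q₁ * q₂) (P a (((q₂ * x + q₁ * y) % (q₁ * q₂) : ℕ) : ℤ)) =
      (∑ x ∈ range q₁, E q₁ (P b (x : ℤ))) * ∑ y ∈ range q₂, E q₂ (P b' (y : ℤ)) := by
    rw [sum_mul_sum]
    exact sum_congr rfl fun x _ => sum_congr rfl fun y _ => e1 x y
  rw [e2]
  push_cast
  rw [one_div, one_div, one_div, mul_inv]
  ring

/-- the coefficients modulo one factor -/
def red {d : ℕ} (q c : ℕ) (a : Fin d → ℕ) : Fin d → ℕ := fun i => (a i * c ^ i.val) % q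

theorem red_mem {d q c Q : ℕ} (hq : 1 ≤ q) (hc : q.Coprime c) (hQ : q ∣ Q) {a : Fin d → ℕ}
    (ha : a ∈ Red d Q) : red q c a ∈ Red d q := by
  classical
  unfold Red at ha ⊢
  rw [mem_filter, Fintype.mem_piFinset] at ha ⊢
  refine ⟨fun i => mem_range.mpr (Nat.mod_lt _ hq), fun g hg hga => ?_⟩
  refine ha.2 g (hg.trans hQ) fun i => ?_
  have h1 : g ∣ a i * c ^ i.val := (Nat.dvd_mod_iff hg).mp (hga i)
  exact (Nat.Coprime.dvd_of_dvd_mul_right ((Nat.Coprime.coprime_dvd_left hg hc).pow_right _) h1)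

theorem red_cong {d q c : ℕ} (a : Fin d → ℕ) (i : Fin d) :
    ((a i : ℕ) : ℤ) * (c : ℤ) ^ i.val ≡ ((red q c a i : ℕ) : ℤ) [ZMOD q] := by
  unfold red
  push_cast
  exact (Int.mod_modEq _ _).symm

theorem pf_MUW : T_MUW := by
  classical
  intro d s q₁ q₂ h₁ h₂ hc
  unfold Wd
  have e1 : ∀ a ∈ Red d (q₁ * q₂), ‖Sq (q₁ * q₂) (fun i : Fin d => (a i : ℤ))‖ ^ s =
      ‖Sq q₁ (fun i : Fin d => ((red q₁ q₂ a i : ℕ) : ℤ))‖ ^ s *
        ‖Sq q₂ (fun i : Fin d => ((red q₂ q₁ a i : ℕ) : ℤ))‖ ^ s := by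
    intro a _
    rw [← mul_pow, ← norm_mul, ← Sq_mul h₁ h₂ hc _ _ _ (red_cong a) (red_cong a)]
  have hinj : Set.InjOn (fun a : Fin d → ℕ => (red q₁ q₂ a, red q₂ q₁ a))
      (Red d (q₁ * q₂) : Finset (Fin d → ℕ)) := by
    intro a ha a' ha' h
    dsimp only at h
    rw [Prod.mk.injEq] at h
    unfold Red at ha ha'
    rw [mem_coe, mem_filter, Fintype.mem_piFinset] at ha ha'
    funext i
    have h3 : a i * q₂ ^ i.val ≡ a' i * q₂ ^ i.val [MOD q₁] := congrFun h.1 i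
    have h4 : a i * q₁ ^ i.val ≡ a' i * q₁ ^ i.val [MOD q₂] := congrFun h.2 i
    have h5 : a i ≡ a' i [MOD q₁] := Nat.ModEq.cancel_right_of_coprime (hc.pow_right _) h3
    have h6 : a i ≡ a' i [MOD q₂] := Nat.ModEq.cancel_right_of_coprime (hc.symm.pow_right _) h4
    have h7 : a i ≡ a' i [MOD (q₁ * q₂)] := (Nat.modEq_and_modEq_iff_modEq_mul hc).mp ⟨h5, h6⟩
    exact Nat.ModEq.eq_of_lt_of_lt h7 (mem_range.mp (ha.1 i)) (mem_range.mp (ha'.1 i))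
  rw [sum_congr rfl e1, sum_mul_sum, ← sum_product' (Red d q₁) (Red d q₂) fun b b' =>
    ‖Sq q₁ (fun i : Fin d => ((b i : ℕ) : ℤ))‖ ^ s * ‖Sq q₂ (fun i : Fin d => ((b' i : ℕ) : ℤ))‖ ^ s]
  rw [← sum_image (s := Red d (q₁ * q₂))
    (g := fun a : Fin d → ℕ => (red q₁ q₂ a, red q₂ q₁ a))
    (f := fun p : (Fin d → ℕ) × (Fin d → ℕ) => ‖Sq q₁ (fun i : Fin d => ((p.1 i : ℕ) : ℤ))‖ ^ s *
      ‖Sq q₂ (fun i : Fin d => ((p.2 i : ℕ) : ℤ))‖ ^ s) hinj]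
  refine sum_le_sum_of_subset_of_nonneg ?_ fun p _ _ => by positivity
  intro p hp
  obtain ⟨a, ha, rfl⟩ := mem_image.mp hp
  rw [mem_product]
  exact ⟨red_mem h₁ hc (Dvd.intro _ rfl) ha, red_mem h₂ hc.symm (Dvd.intro_left _ rfl) ha⟩

end Pool.Agent.H13.ENX
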